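import Pool.Agent.Lib.MP_5f22fc_co.LogPack

set_option autoImplicit false

namespace Pool.Agent.Results.MP_5f22fc_co.FewCollinear

open Pool.Agent.Vis5f

/-- If at most `l` points of `P` are collinear and `2 l exp (4 / (9 ε)) ≤ 3 ε δ`, then the
visibility graph of `P` has vertex-connectivity larger than `(2/3 - ε) δ`. -/
theorem result :
    ∀ (P : Finset (ℝ × ℝ)), 2 ≤ P.card →
      ∀ G : SimpleGraph (ℝ × ℝ),
        (∀ p q : ℝ × ℝ, G.Adj p q ↔
          (p ∈ P ∧ q ∈ P ∧ p ≠ q ∧ ∀ r ∈ P, r ∉ openSegment ℝ p q)) →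
        ∀ d : ℕ, (∀ p ∈ P, d ≤ (G.neighborSet p).ncard) →
          ∀ l : ℕ, (∀ Q : Finset (ℝ × ℝ), Q ⊆ P → Collinear ℝ (Q : Set (ℝ × ℝ)) → Q.card ≤ l) →
            ∀ ε : ℝ, 0 < ε → 2 * (l : ℝ) * Real.exp (4 / (9 * ε)) ≤ 3 * ε * d →
              ∀ S : Finset (ℝ × ℝ), S ⊆ P → (S.card : ℝ) ≤ (2 / 3 - ε) * d →
                (S.card + 2 ≤ P.card ∧
                  (G.induce ((P : Set (ℝ × ℝ)) \ (S : Set (ℝ × ℝ)))).Connected) := by
  intro P hP G hG d hd l hl ε hε hle S hS hk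
  obtain ⟨p, hp⟩ : P.Nonempty := Finset.card_pos.1 (by omega)
  have h1 := deg_le hG hp
  have h2 := hd p hp
  have d0 : (0 : ℝ) ≤ d := Nat.cast_nonneg _
  have hl0 : 1 ≤ l := by
    have := hl {p} (Finset.singleton_subset_iff.2 hp) (by simp [collinear_singleton])
    simpa using this
  have l0 : (0 : ℝ) < l := by exact_mod_cast hl0
  have e0 := Real.exp_pos (4 / (9 * ε))
  have εd : 0 < ε * d := by nlinarith [mul_pos l0 e0]
  have k1 : 3 * S.card < 2 * d := by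
    have : (3 * S.card : ℝ) < 2 * d := by nlinarith
    exact_mod_cast this
  refine ⟨by omega, ?_⟩
  obtain ⟨x, hx, hxS⟩ := Finset.exists_mem_notMem_of_card_lt_card (s := S) (t := P) (by omega)
  have : Nonempty ((P : Set (ℝ × ℝ)) \ (S : Set (ℝ × ℝ)) : Set (ℝ × ℝ)) := ⟨⟨x, hx, hxS⟩⟩
  refine ⟨?_⟩
  by_contra hc
  obtain ⟨A, B, h, hA, hB⟩ := exists_cut hS hc
  set D : ℝ := 2 * d + 1 - 3 * S.card with hD
  have D1 : 3 * ε * d < D := by rw [hD]; nlinarith
  have D0 : 0 < D := by nlinarith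
  have key : D * Real.log (D / (2 * l)) ≤ 2 * S.card := by
    rcases le_total A.card B.card with e | e
    · exact core_log hG h hd hA e hl hD D0
    · exact core_log hG h.symm hd hB e hl hD D0
  have t1 : 4 / (9 * ε) ≤ Real.log (D / (2 * l)) := by
    rw [Real.le_log_iff_exp_le (by positivity), le_div_iff₀ (by positivity)]
    linarith
  have t2 : D * (4 / (9 * ε)) ≤ 2 * S.card := (mul_le_mul_of_nonneg_left t1 D0.le).trans key
  have t3 : 3 * ε * d * (4 / (9 * ε)) < D * (4 / (9 * ε)) :=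
    mul_lt_mul_of_pos_right D1 (by positivity)
  have t4 : 3 * ε * d * (4 / (9 * ε)) = 4 / 3 * d := by field_simp; ring
  nlinarith

end Pool.Agent.Results.MP_5f22fc_co.FewCollinear
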